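import Mathlib

/-
Decay of a correlated pair on a centred family.
-/

namespace Pool.Agent.MP_66cee2_co.H60K

open MeasureTheory Set
open scoped RealInnerProductSpace

theorem abs_sum_le {ι : Type} [Fintype ι] (a b : ι → ℝ) (P : ℝ) (ha : ∑ i, a i ^ 2 ≤ P)
    (hb : ∑ i, b i ^ 2 ≤ P) : |∑ i, a i * b i| ≤ P := by
  have h1 : ∑ i, a i * b i ≤ ∑ i, (a i ^ 2 + b i ^ 2) / 2 :=
    Finset.sum_le_sum fun i _ => by nlinarith [sq_nonneg (a i - b i)]
  have h2 : ∑ i, -((a i ^ 2 + b i ^ 2) / 2) ≤ ∑ i, a i * b i :=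
    Finset.sum_le_sum fun i _ => by nlinarith [sq_nonneg (a i + b i)]
  rw [Finset.sum_neg_distrib] at h2
  rw [← Finset.sum_div, Finset.sum_add_distrib] at h1 h2
  rw [abs_le]
  constructor <;> linarith

/-- abstract form. -/
theorem decay_abs {X : Type} [MeasurableSpace X] (m : Measure X) [SFinite m] {ι : Type} [Fintype ι]
    (g q : X → ℝ) (k : X × X → ℝ) (f : ι → X → ℝ) (P c M : ℝ) (hc : 0 ≤ c)
    (hg0 : ∀ x, 0 ≤ g x) (hq0 : ∀ x, 0 ≤ q x) (hgi : Integrable g m) (hg1 : ∫ x, g x ∂m = 1)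
    (hqi : Integrable (fun x => g x * q x) m) (hqM : ∫ x, g x * q x ∂m ≤ M)
    (hki : Integrable k (m.prod m)) (hk1 : ∫ z, k z ∂(m.prod m) = 1)
    (hlow : ∀ x y, g x * g y * (1 - c * (q x + q y)) ≤ k (x, y))
    (hf : ∀ i, Measurable (f i)) (hP : ∀ x, ∑ i, f i x ^ 2 ≤ P)
    (hcen : ∀ i, ∫ x, g x * f i x ∂m = 0) :
    Integrable (fun z : X × X => k z * ∑ i, f i z.1 * f i z.2) (m.prod m) ∧
      ∫ z, k z * ∑ i, f i z.1 * f i z.2 ∂(m.prod m) ≤ 4 * P * c * M := by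
  have hSm : Measurable (fun z : X × X => ∑ i, f i z.1 * f i z.2) :=
    Finset.measurable_sum _ fun i _ => ((hf i).comp measurable_fst).mul ((hf i).comp measurable_snd)
  have hSb : ∀ z : X × X, |∑ i, f i z.1 * f i z.2| ≤ P := fun z =>
    abs_sum_le (fun i => f i z.1) (fun i => f i z.2) P (hP _) (hP _)
  have hfb : ∀ i x, |f i x| ≤ P + 1 := fun i x => by
    have h1 : f i x ^ 2 ≤ ∑ j, f j x ^ 2 :=
      Finset.single_le_sum (f := fun j => f j x ^ 2) (fun j _ => sq_nonneg _) (Finset.mem_univ i)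
    have h2 := hP x
    rw [abs_le]
    constructor <;> nlinarith [sq_nonneg (f i x - 1), sq_nonneg (f i x + 1), sq_nonneg (f i x)]
  have hI : Integrable (fun z : X × X => k z * ∑ i, f i z.1 * f i z.2) (m.prod m) :=
    hki.mul_bdd (c := P) hSm.aestronglyMeasurable (ae_of_all _ fun z => by simpa using hSb z)
  refine ⟨hI, ?_⟩
  have hgf : ∀ i, Integrable (fun x => g x * f i x) m := fun i =>
    hgi.mul_bdd (c := P + 1) (hf i).aestronglyMeasurable (ae_of_all _ fun x => by simpa using hfb i x)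
  have hA : ∀ i, Integrable (fun z : X × X => (g z.1 * f i z.1) * (g z.2 * f i z.2)) (m.prod m) :=
    fun i => (hgf i).mul_prod (hgf i)
  have hAs : Integrable (fun z : X × X => ∑ i, (g z.1 * f i z.1) * (g z.2 * f i z.2)) (m.prod m) :=
    integrable_finset_sum _ fun i _ => hA i
  have hAv : ∫ z : X × X, ∑ i, (g z.1 * f i z.1) * (g z.2 * f i z.2) ∂(m.prod m) = 0 := by
    rw [integral_finset_sum _ fun i _ => hA i]
    refine Finset.sum_eq_zero fun i _ => ?_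
    rw [integral_prod_mul (fun x => g x * f i x) (fun x => g x * f i x), hcen i, mul_zero]
  have hB : Integrable (fun z : X × X => g z.1 * g z.2) (m.prod m) := hgi.mul_prod hgi
  have hBv : ∫ z : X × X, g z.1 * g z.2 ∂(m.prod m) = 1 := by
    rw [integral_prod_mul g g, hg1, mul_one]
  have hC : Integrable (fun z : X × X => (g z.1 * q z.1) * g z.2) (m.prod m) := hqi.mul_prod hgi
  have hCv : ∫ z : X × X, (g z.1 * q z.1) * g z.2 ∂(m.prod m) ≤ M := by
    rw [integral_prod_mul (fun x => g x * q x) g, hg1, mul_one]; exact hqM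
  have hD : Integrable (fun z : X × X => g z.1 * (g z.2 * q z.2)) (m.prod m) := hgi.mul_prod hqi
  have hDv : ∫ z : X × X, g z.1 * (g z.2 * q z.2) ∂(m.prod m) ≤ M := by
    rw [integral_prod_mul g (fun x => g x * q x), hg1, one_mul]; exact hqM
  by_cases hX : IsEmpty X
  · simp [integral_of_isEmpty] at hg1
  have hP0 : 0 ≤ P := by
    rw [not_isEmpty_iff] at hX
    obtain ⟨x⟩ := hX
    exact le_trans (Finset.sum_nonneg fun i _ => sq_nonneg _) (hP x)
  have hR : Integrable (fun z : X × X => (∑ i, (g z.1 * f i z.1) * (g z.2 * f i z.2)) +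
      (P * k z - P * (g z.1 * g z.2)) +
      (2 * P * c * ((g z.1 * q z.1) * g z.2) + 2 * P * c * (g z.1 * (g z.2 * q z.2)))) (m.prod m) :=
    (hAs.add ((hki.const_mul P).sub (hB.const_mul P))).add
      ((hC.const_mul _).add (hD.const_mul _))
  have hle : ∀ z : X × X, k z * ∑ i, f i z.1 * f i z.2 ≤
      (∑ i, (g z.1 * f i z.1) * (g z.2 * f i z.2)) + (P * k z - P * (g z.1 * g z.2)) +
      (2 * P * c * ((g z.1 * q z.1) * g z.2) + 2 * P * c * (g z.1 * (g z.2 * q z.2))) := by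
    intro z
    have e : ∑ i, (g z.1 * f i z.1) * (g z.2 * f i z.2) =
        g z.1 * g z.2 * ∑ i, f i z.1 * f i z.2 := by
      rw [Finset.mul_sum]; exact Finset.sum_congr rfl fun i _ => by ring
    rw [e]
    have hb := abs_le.1 (hSb z)
    have hl : g z.1 * g z.2 * (1 - c * (q z.1 + q z.2)) ≤ k z := hlow z.1 z.2
    have hw : 0 ≤ g z.1 * g z.2 * (c * (q z.1 + q z.2)) :=
      mul_nonneg (mul_nonneg (hg0 _) (hg0 _)) (mul_nonneg hc (add_nonneg (hq0 _) (hq0 _)))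
    set S := ∑ i, f i z.1 * f i z.2
    set G := g z.1 * g z.2
    set W := G * (c * (q z.1 + q z.2)) with hW
    have e2 : 2 * P * c * ((g z.1 * q z.1) * g z.2) + 2 * P * c * (g z.1 * (g z.2 * q z.2)) =
        2 * P * W := by rw [hW]; simp only [G]; ring
    rw [e2]
    have h3 : 0 ≤ k z - G + W := by rw [hW]; nlinarith
    nlinarith [mul_nonneg h3 (sub_nonneg.2 hb.2), mul_nonneg hw (by linarith [hb.1] : 0 ≤ P + S)]
  refine le_trans (integral_mono hI hR hle) ?_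
  have i1 : Integrable (fun z : X × X => P * k z) (m.prod m) := hki.const_mul P
  have i2 : Integrable (fun z : X × X => P * (g z.1 * g z.2)) (m.prod m) := hB.const_mul P
  have i3 : Integrable (fun z : X × X => P * k z - P * (g z.1 * g z.2)) (m.prod m) := i1.sub i2
  have i4 : Integrable (fun z : X × X => (∑ i, (g z.1 * f i z.1) * (g z.2 * f i z.2)) +
      (P * k z - P * (g z.1 * g z.2))) (m.prod m) := hAs.add i3
  have i5 : Integrable (fun z : X × X => 2 * P * c * ((g z.1 * q z.1) * g z.2)) (m.prod m) :=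
    hC.const_mul _
  have i6 : Integrable (fun z : X × X => 2 * P * c * (g z.1 * (g z.2 * q z.2))) (m.prod m) :=
    hD.const_mul _
  have i7 : Integrable (fun z : X × X => 2 * P * c * ((g z.1 * q z.1) * g z.2) +
      2 * P * c * (g z.1 * (g z.2 * q z.2))) (m.prod m) := i5.add i6
  rw [integral_add i4 i7, integral_add hAs i3, integral_sub i1 i2, integral_add i5 i6,
    integral_const_mul, integral_const_mul, integral_const_mul, integral_const_mul, hAv, hk1, hBv]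
  have h5 : 0 ≤ 2 * P * c := by positivity
  nlinarith [mul_le_mul_of_nonneg_left hCv h5, mul_le_mul_of_nonneg_left hDv h5]

/-- the pointwise lower bound of the exponent. -/
theorem expo_low {V : Type} [NormedAddCommGroup V] [InnerProductSpace ℝ V] (s μ : ℝ) (hs : 0 < s)
    (h0 : 0 ≤ μ) (h1 : μ ≤ 1 / 2) (x y : V) :
    Real.exp (-‖x‖ ^ 2 / (2 * s ^ 2)) * Real.exp (-‖y‖ ^ 2 / (2 * s ^ 2)) *
        (1 - μ / s ^ 2 * (‖x‖ ^ 2 + ‖y‖ ^ 2)) ≤
      Real.exp (-(‖x‖ ^ 2 + ‖y‖ ^ 2 - 2 * μ * ⟪x, y⟫) / (2 * s ^ 2 * (1 - μ ^ 2))) := by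
  have hs2 : 0 < s ^ 2 := by positivity
  have hm : 0 < 1 - μ ^ 2 := by nlinarith
  have hi : -(‖x‖ ^ 2 + ‖y‖ ^ 2) ≤ 2 * ⟪x, y⟫ := by
    have := abs_le.1 (abs_real_inner_le_norm x y)
    nlinarith [sq_nonneg (‖x‖ - ‖y‖)]
  set T := ‖x‖ ^ 2 + ‖y‖ ^ 2 with hT
  have hT0 : 0 ≤ T := by positivity
  have h2 : 1 - μ / s ^ 2 * T ≤ Real.exp (-(μ / s ^ 2 * T)) := by
    have := Real.add_one_le_exp (-(μ / s ^ 2 * T)); linarith
  refine le_trans (mul_le_mul_of_nonneg_left h2 (by positivity)) ?_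
  rw [← Real.exp_add, ← Real.exp_add]
  apply Real.exp_le_exp.2
  have e : -‖x‖ ^ 2 / (2 * s ^ 2) + -‖y‖ ^ 2 / (2 * s ^ 2) + -(μ / s ^ 2 * T) =
      (-(T * (1 + 2 * μ) * (1 - μ ^ 2))) / (2 * s ^ 2 * (1 - μ ^ 2)) := by
    rw [hT]; field_simp; ring
  rw [e]
  apply div_le_div_of_nonneg_right _ (by positivity)
  have h3 : 1 + μ ≤ (1 + 2 * μ) * (1 - μ ^ 2) := by
    nlinarith [mul_nonneg h0 h0, mul_nonneg h0 (mul_nonneg h0 h0),
      mul_nonneg h0 (sub_nonneg.2 h1), mul_nonneg (mul_nonneg h0 h0) (sub_nonneg.2 h1)]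
  nlinarith [mul_le_mul_of_nonneg_left h3 hT0, mul_le_mul_of_nonneg_left hi h0]

/-- a Gaussian integral. -/
theorem gauss_int (d : ℕ) (b : ℝ) (hb : 0 < b) :
    Integrable (fun x : EuclideanSpace ℝ (Fin d) => Real.exp (-b * ‖x‖ ^ 2)) ∧
      ∫ x : EuclideanSpace ℝ (Fin d), Real.exp (-b * ‖x‖ ^ 2) = (Real.pi / b) ^ ((d : ℝ) / 2) := by
  have h := GaussianFourier.integral_rexp_neg_mul_sq_norm (V := EuclideanSpace ℝ (Fin d)) hb
  rw [finrank_euclideanSpace_fin] at h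
  refine ⟨?_, h⟩
  by_contra hn
  rw [integral_undef hn] at h
  have : 0 < (Real.pi / b) ^ ((d : ℝ) / 2) := by positivity
  linarith

/-- the second moment of the normalised Gaussian. -/
theorem mom2 (d : ℕ) (s : ℝ) (hs : 0 < s) :
    Integrable (fun x : EuclideanSpace ℝ (Fin d) =>
      ((2 * Real.pi * s ^ 2) ^ (-((d : ℝ) / 2)) * Real.exp (-‖x‖ ^ 2 / (2 * s ^ 2))) * ‖x‖ ^ 2) ∧
    ∫ x : EuclideanSpace ℝ (Fin d),
      ((2 * Real.pi * s ^ 2) ^ (-((d : ℝ) / 2)) * Real.exp (-‖x‖ ^ 2 / (2 * s ^ 2))) * ‖x‖ ^ 2 ≤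
        4 * (d + 1) * s ^ 2 := by
  have hs2 : 0 < s ^ 2 := by positivity
  have hd : (0 : ℝ) ≤ d := Nat.cast_nonneg d
  set b : ℝ := (d + 1) / (2 * s ^ 2 * (d + 2)) with hb
  have hb0 : 0 < b := by positivity
  obtain ⟨hi, hv⟩ := gauss_int d b hb0
  set C : ℝ := (2 * Real.pi * s ^ 2) ^ (-((d : ℝ) / 2)) with hC
  have hC0 : 0 < C := by positivity
  set e : ℝ := 1 / (2 * s ^ 2 * (d + 2)) with he
  have he0 : 0 < e := by positivity
  have hle : ∀ x : EuclideanSpace ℝ (Fin d),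
      (C * Real.exp (-‖x‖ ^ 2 / (2 * s ^ 2))) * ‖x‖ ^ 2 ≤
        (C / (Real.exp 1 * e)) * Real.exp (-b * ‖x‖ ^ 2) := by
    intro x
    have h1 : e * ‖x‖ ^ 2 ≤ Real.exp (e * ‖x‖ ^ 2 - 1) := by
      have := Real.add_one_le_exp (e * ‖x‖ ^ 2 - 1); linarith
    have h2 : Real.exp (-b * ‖x‖ ^ 2) =
        Real.exp (-‖x‖ ^ 2 / (2 * s ^ 2)) * Real.exp (e * ‖x‖ ^ 2 - 1) * Real.exp 1 := by
      rw [← Real.exp_add, ← Real.exp_add]
      refine congrArg Real.exp ?_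
      rw [hb, he]; field_simp; ring
    rw [h2]
    have h3 : C / (Real.exp 1 * e) * (Real.exp (-‖x‖ ^ 2 / (2 * s ^ 2)) *
        Real.exp (e * ‖x‖ ^ 2 - 1) * Real.exp 1) =
        (C * Real.exp (-‖x‖ ^ 2 / (2 * s ^ 2))) * (Real.exp (e * ‖x‖ ^ 2 - 1) / e) := by
      have := Real.exp_pos 1
      field_simp
    rw [h3]
    apply mul_le_mul_of_nonneg_left _ (by positivity)
    rw [le_div_iff₀ he0]; linarith
  have hm : Continuous (fun x : EuclideanSpace ℝ (Fin d) =>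
      (C * Real.exp (-‖x‖ ^ 2 / (2 * s ^ 2))) * ‖x‖ ^ 2) := by fun_prop
  have hI : Integrable (fun x : EuclideanSpace ℝ (Fin d) =>
      (C * Real.exp (-‖x‖ ^ 2 / (2 * s ^ 2))) * ‖x‖ ^ 2) :=
    (hi.const_mul (C / (Real.exp 1 * e))).mono' hm.aestronglyMeasurable
      (ae_of_all _ fun x => by rw [Real.norm_of_nonneg (by positivity)]; exact hle x)
  refine ⟨hI, le_trans (integral_mono hI (hi.const_mul _) hle) ?_⟩
  rw [integral_const_mul, hv]
  have h4 : C * (Real.pi / b) ^ ((d : ℝ) / 2) = (1 + 1 / ((d : ℝ) + 1)) ^ ((d : ℝ) / 2) := by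
    have e1 : Real.pi / b = (2 * Real.pi * s ^ 2) * (1 + 1 / ((d : ℝ) + 1)) := by
      rw [hb]; field_simp; ring
    rw [e1, Real.mul_rpow (by positivity) (by positivity), ← mul_assoc, hC,
      ← Real.rpow_add (by positivity)]
    simp
  have h5 : (1 + 1 / ((d : ℝ) + 1)) ^ ((d : ℝ) / 2) ≤ Real.exp 1 := by
    have a1 : 1 + 1 / ((d : ℝ) + 1) ≤ Real.exp (1 / ((d : ℝ) + 1)) := by
      have := Real.add_one_le_exp (1 / ((d : ℝ) + 1)); linarith
    refine le_trans (Real.rpow_le_rpow (by positivity) a1 (by positivity)) ?_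
    rw [← Real.exp_mul]
    apply Real.exp_le_exp.2
    rw [div_mul_eq_mul_div, div_le_one (by positivity)]
    linarith
  have h6 : C / (Real.exp 1 * e) * (Real.pi / b) ^ ((d : ℝ) / 2) =
      (C * (Real.pi / b) ^ ((d : ℝ) / 2)) / Real.exp 1 * (2 * s ^ 2 * (d + 2)) := by
    have := Real.exp_pos 1
    rw [he]; field_simp
  rw [h6, h4]
  have h7 : (1 + 1 / ((d : ℝ) + 1)) ^ ((d : ℝ) / 2) / Real.exp 1 ≤ 1 :=
    (div_le_one (Real.exp_pos 1)).2 h5
  have h8 : 0 ≤ 2 * s ^ 2 * ((d : ℝ) + 2) := by positivity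
  nlinarith [mul_le_mul_of_nonneg_right h7 h8, mul_nonneg hd hs2.le]

end Pool.Agent.MP_66cee2_co.H60K
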